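import Pool.Agent.Helper42.DB.Goals2

set_option autoImplicit false

namespace Pool.Agent.Helper42.DB.PkQOPEN

open Set Filter Topology

lemma decomp (θ : ℝ) (z : ℂ) : z = dt (ee θ) z • ee θ + cr (ee θ) z • tt θ := by
  have h := Real.cos_sq_add_sin_sq θ
  apply Complex.ext
  · simp only [dt, cr, Complex.add_re, Complex.smul_re, smul_eq_mul, ee_re, ee_im, tt_re]
    linear_combination (-z.re) * h
  · simp only [dt, cr, Complex.add_im, Complex.smul_im, smul_eq_mul, ee_re, ee_im, tt_im]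
    linear_combination (-z.im) * h

theorem thm : G_QOPEN := by
  intro p q b θ T hpq hb hθ hT hside
  rw [isOpen_iff_mem_nhds]
  rintro X ⟨l, hl, t, ht, hX⟩
  have hIcc : Icc p q ∈ 𝓝 l := Icc_mem_nhds hl.1 hl.2
  have hIoo : Ioo p q ∈ 𝓝 l := Ioo_mem_nhds hl.1 hl.2
  have hbl : ContinuousAt b l := hb.continuousAt hIcc
  have hθl : ContinuousAt θ l := hθ.continuousAt hIcc
  have hTl : ContinuousAt T l := hT.continuousAt hIcc
  have hdt : dt (ee (θ l)) (X - b l) = t := by
    rw [hX, add_sub_cancel_left, dt_smul_right, dt_ee_ee, sub_self, Real.cos_zero, mul_one]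
  have h1 : ContinuousAt (fun x : ℝ × ℂ => ee (θ x.1)) (l, X) :=
    continuous_ee.continuousAt.comp (ContinuousAt.comp (x := ((l, X) : ℝ × ℂ)) hθl continuousAt_fst)
  have h2 : ContinuousAt (fun x : ℝ × ℂ => x.2 - b x.1) (l, X) :=
    continuousAt_snd.sub (ContinuousAt.comp (x := ((l, X) : ℝ × ℂ)) hbl continuousAt_fst)
  have hT1 : ContinuousAt (fun x : ℝ × ℂ => T x.1) (l, X) :=
    ContinuousAt.comp (x := ((l, X) : ℝ × ℂ)) hTl continuousAt_fst
  have hdtc : Continuous (fun z : ℂ × ℂ => dt z.1 z.2) := continuous_dt continuous_fst continuous_snd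
  have hcrc : Continuous (fun z : ℂ × ℂ => cr z.1 z.2) := continuous_cr continuous_fst continuous_snd
  have hD : ContinuousAt (fun x : ℝ × ℂ => dt (ee (θ x.1)) (x.2 - b x.1)) (l, X) :=
    hdtc.continuousAt.comp (h1.prodMk h2)
  have ev : ∀ᶠ x in 𝓝 ((l, X) : ℝ × ℂ), (0 < dt (ee (θ x.1)) (x.2 - b x.1)) ∧
      dt (ee (θ x.1)) (x.2 - b x.1) < T x.1 := by
    apply Filter.Eventually.and
    · apply ContinuousAt.eventually_lt continuousAt_const hD
      show 0 < dt (ee (θ l)) (X - b l)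
      rw [hdt]; exact ht.1
    · apply ContinuousAt.eventually_lt hD hT1
      show dt (ee (θ l)) (X - b l) < T l
      rw [hdt]; exact ht.2
  rw [nhds_prod_eq] at ev
  obtain ⟨pa, hpa, pb, hpb, hab⟩ := Filter.eventually_prod_iff.mp ev
  obtain ⟨η, hη, hball⟩ := Metric.eventually_nhds_iff.mp (hpa.and hIoo)
  obtain ⟨ε, hε, hL, hR⟩ := hside l hl t ht.1
  have hm : 0 < min ε η := lt_min hε hη
  obtain ⟨δ, hδ0, hδ⟩ : ∃ δ : ℝ, 0 < δ ∧ δ < min ε η := ⟨min ε η / 2, by linarith, by linarith⟩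
  have hδε : δ < ε := lt_of_lt_of_le hδ (min_le_left _ _)
  have hδη : δ < η := lt_of_lt_of_le hδ (min_le_right _ _)
  have hF1 := hL (l - δ) ⟨by linarith, by linarith⟩
  have hF2 := hR (l + δ) ⟨by linarith, by linarith⟩
  rw [← hX] at hF1 hF2
  have c1 : ContinuousAt (fun X' : ℂ => cr (ee (θ (l - δ))) (X' - b (l - δ))) X :=
    (continuous_cr continuous_const (continuous_id.sub continuous_const)).continuousAt
  have c2 : ContinuousAt (fun X' : ℂ => cr (ee (θ (l + δ))) (X' - b (l + δ))) X :=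
    (continuous_cr continuous_const (continuous_id.sub continuous_const)).continuousAt
  have ev1 : ∀ᶠ X' in 𝓝 X, 0 < cr (ee (θ (l - δ))) (X' - b (l - δ)) :=
    ContinuousAt.eventually_lt continuousAt_const c1 hF1
  have ev2 : ∀ᶠ X' in 𝓝 X, cr (ee (θ (l + δ))) (X' - b (l + δ)) < 0 :=
    ContinuousAt.eventually_lt c2 continuousAt_const hF2
  filter_upwards [hpb, ev1, ev2] with X' hX' h1' h2'
  have hsub : ∀ l' ∈ Icc (l - δ) (l + δ), pa l' ∧ l' ∈ Ioo p q := by
    intro l' hl'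
    apply hball
    rw [Real.dist_eq, abs_lt]
    constructor <;> linarith [hl'.1, hl'.2]
  have hc : ContinuousOn (fun l' => cr (ee (θ l')) (X' - b l')) (Icc (l - δ) (l + δ)) := by
    have hs : Icc (l - δ) (l + δ) ⊆ Icc p q := fun l' hl' => Ioo_subset_Icc_self (hsub l' hl').2
    apply hcrc.comp_continuousOn
      ((continuous_ee.comp_continuousOn (hθ.mono hs)).prodMk
        (continuousOn_const.sub (hb.mono hs)))
  obtain ⟨l', hl', h0⟩ := intermediate_value_Icc' (by linarith) hc ⟨h2'.le, h1'.le⟩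
  obtain ⟨hpl', hlpq⟩ := hsub l' hl'
  have hh := hab hpl' hX'
  refine ⟨l', hlpq, dt (ee (θ l')) (X' - b l'), hh, ?_⟩
  have hdec := decomp (θ l') (X' - b l')
  have h0' : cr (ee (θ l')) (X' - b l') = 0 := h0
  rw [h0', zero_smul, add_zero] at hdec
  rw [← hdec]; ring

end Pool.Agent.Helper42.DB.PkQOPEN
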